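import Pool.Agent.H146Z.TwMain

set_option autoImplicit false

open Pool.Agent.H146Z.Tw

/-- For every `c` there is a constant `r` such that for every `d > 0` some planar graph `H` on
`n ≥ 2` vertices has at most `r ≤ d n / log n` pairwise vertex-disjoint cycles, while some finite
graph `G` without an `H` minor has treewidth greater than `c n` (hence `f(H) > c n`). -/
theorem Pool.Agent.Results.MP_711e27_co.NotLinear.result (c : ℝ) :
    ∃ r : ℕ, ∀ d : ℝ, 0 < d →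
      ∃ (W : Type) (_ : Fintype W) (H : SimpleGraph W),
        2 ≤ Fintype.card W ∧ HasPlaneDrawing H ∧ (∀ k, HasDisjointCycles H k → k ≤ r) ∧
        (r : ℝ) ≤ d * (Fintype.card W : ℝ) / Real.log (Fintype.card W : ℝ) ∧
        ∃ (V : Type) (_ : Fintype V) (G : SimpleGraph V),
          ¬ IsMinor H G ∧ c * (Fintype.card W : ℝ) < (treewidth G : ℝ) := by
  obtain ⟨C, hC⟩ := exists_nat_ge c
  obtain ⟨L, hL⟩ : ∃ L, L = 8 * C + 1 := ⟨_, rfl⟩
  obtain ⟨a, ha⟩ : ∃ a, a = 27 * L + 2 := ⟨_, rfl⟩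
  refine ⟨2 * 2 ^ a, fun d hd => ?_⟩
  have h1 : ∀ᶠ x : ℝ in Filter.atTop, ‖Real.log x‖ ≤ (d / 4) * ‖id x‖ :=
    Real.isLittleO_log_id_atTop.bound (by positivity)
  have h2 : ∀ᶠ x : ℝ in Filter.atTop, Real.log (2 ^ a) * (4 / d) ≤ x :=
    Filter.eventually_ge_atTop _
  obtain ⟨x0, hx0⟩ := Filter.eventually_atTop.1 (h1.and h2)
  obtain ⟨j0, hj0⟩ := exists_nat_ge x0
  obtain ⟨j, hj⟩ : ∃ j, j = j0 + 4 := ⟨_, rfl⟩
  have hjx : x0 ≤ (j : ℝ) + 4 := by
    rw [hj]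
    push_cast
    linarith
  obtain ⟨h3, h4⟩ := hx0 _ hjx
  have hj4 : (4 : ℝ) ≤ j := by
    rw [hj]
    push_cast
    linarith [Nat.cast_nonneg (α := ℝ) j0]
  have hcard : Fintype.card (Fin (2 ^ a) × (Bool ⊕ Fin (j + 2))) = 2 ^ a * (j + 4) := by
    simp only [Fintype.card_prod, Fintype.card_sum, Fintype.card_bool, Fintype.card_fin]
    ring
  have hpos : 0 < 2 ^ a := by positivity
  obtain ⟨N, G, hG1, hG2⟩ := exists_host L j (by omega) (by omega)
  rw [← ha] at hG1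
  refine ⟨Fin (2 ^ a) × (Bool ⊕ Fin (j + 2)), inferInstance, HK (2 ^ a) (j + 2), ?_,
    HK_planar _ _, fun k hk => HK_cycles _ _ k hk, ?_, Fin N, inferInstance, G, hG1, ?_⟩
  · rw [hcard]
    calc 2 ≤ 1 * (j + 4) := by omega
      _ ≤ 2 ^ a * (j + 4) := Nat.mul_le_mul_right _ hpos
  · rw [hcard]
    push_cast
    have hp : (1 : ℝ) ≤ 2 ^ a := one_le_pow₀ (by norm_num)
    have hlog : 0 < Real.log (2 ^ a * ((j : ℝ) + 4)) := by
      apply Real.log_pos
      calc (1 : ℝ) < 1 * ((j : ℝ) + 4) := by linarith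
        _ ≤ 2 ^ a * ((j : ℝ) + 4) := by gcongr
    rw [le_div_iff₀ hlog, Real.log_mul (by positivity) (by positivity)]
    rw [Real.norm_eq_abs, Real.norm_eq_abs, id, abs_of_pos (a := (j : ℝ) + 4) (by positivity)] at h3
    have h5 : Real.log ((j : ℝ) + 4) ≤ d / 4 * ((j : ℝ) + 4) := (le_abs_self _).trans h3
    have h6 : Real.log (2 ^ a) ≤ d / 4 * ((j : ℝ) + 4) := by
      have h7 : Real.log (2 ^ a) = d / 4 * (Real.log (2 ^ a) * (4 / d)) := by
        field_simp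
      rw [h7]
      gcongr
    have h8 : Real.log (2 ^ a) + Real.log ((j : ℝ) + 4) ≤ d / 2 * ((j : ℝ) + 4) := by linarith
    calc 2 * 2 ^ a * (Real.log (2 ^ a) + Real.log ((j : ℝ) + 4))
        ≤ 2 * 2 ^ a * (d / 2 * ((j : ℝ) + 4)) := by gcongr
      _ = d * (2 ^ a * ((j : ℝ) + 4)) := by ring
  · rw [hcard]
    have h5 : C * (2 ^ a * (j + 4)) < 2 ^ (27 * L) * (L * j) := by
      have h6 : 0 < 2 ^ (27 * L) := by positivity
      have h7 : C * (2 ^ a * (j + 4)) = 2 ^ (27 * L) * (4 * C * (j + 4)) := by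
        rw [ha]
        ring
      rw [h7]
      have h9 : 4 * C * (j + 4) < L * j := by
        rw [hL, hj]
        nlinarith [Nat.zero_le (C * j0)]
      exact Nat.mul_lt_mul_of_pos_left h9 h6
    have h8 : ((C * (2 ^ a * (j + 4)) : ℕ) : ℝ) < (treewidth G : ℝ) := by
      exact_mod_cast h5.trans_le hG2
    refine lt_of_le_of_lt ?_ h8
    push_cast
    gcongr
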